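import Pool.Agent.Y766.R7.Stm

/-!
Project R7 (helper766), task CNT: few triples with product divisible by `p ^ e`.
-/

set_option autoImplicit false

open Finset

namespace Pool.Agent.Y287.R7

/-- nonzero integers of absolute value below `Q` divisible by `p ^ f` -/
noncomputable def T (p f Q : ℕ) : Finset ℤ :=
  ((Ioo (-(Q : ℤ)) Q).filter (· ≠ 0)).filter (fun v => (p : ℤ) ^ f ∣ v)

theorem card_T (p f Q : ℕ) (hp : 0 < p) : ((T p f Q).card : ℝ) ≤ 2 * Q / (p : ℝ) ^ f := by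
  set d := p ^ f with hd
  have hd0 : 0 < d := by positivity
  set S := (Ioc 0 (Q - 1)).filter (fun n => d ∣ n) with hS
  have hsub : T p f Q ⊆ S.image (fun n : ℕ => (n : ℤ)) ∪ S.image (fun n : ℕ => -(n : ℤ)) := by
    intro v hv
    simp only [T, mem_filter, mem_Ioo] at hv
    obtain ⟨⟨⟨h1, h2⟩, h3⟩, h4⟩ := hv
    have hmem : v.natAbs ∈ S := by
      rw [hS, mem_filter, mem_Ioc]
      refine ⟨⟨by omega, by omega⟩, ?_⟩
      rw [hd]
      have : ((p ^ f : ℕ) : ℤ) ∣ v := by push_cast; exact h4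
      exact Int.natCast_dvd.1 this
    rw [mem_union, mem_image, mem_image]
    rcases le_or_gt 0 v with h | h
    · exact Or.inl ⟨v.natAbs, hmem, by omega⟩
    · exact Or.inr ⟨v.natAbs, hmem, by omega⟩
  have hcS : S.card = (Q - 1) / d := by
    rw [hS]; exact Nat.Ioc_filter_dvd_card_eq_div (Q - 1) d
  have h1 : (T p f Q).card ≤ 2 * ((Q - 1) / d) := by
    calc (T p f Q).card ≤ _ := card_le_card hsub
      _ ≤ _ := card_union_le _ _
      _ ≤ S.card + S.card := add_le_add card_image_le card_image_le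
      _ = 2 * ((Q - 1) / d) := by rw [hcS]; ring
  have h2 : (((Q - 1) / d : ℕ) : ℝ) ≤ (Q : ℝ) / (d : ℝ) := by
    refine Nat.cast_div_le.trans ?_
    gcongr
    omega
  calc ((T p f Q).card : ℝ) ≤ ((2 * ((Q - 1) / d) : ℕ) : ℝ) := by exact_mod_cast h1
    _ = 2 * (((Q - 1) / d : ℕ) : ℝ) := by push_cast; ring
    _ ≤ 2 * ((Q : ℝ) / (d : ℝ)) := by gcongr
    _ = 2 * Q / (p : ℝ) ^ f := by rw [hd]; push_cast; ring

theorem split_pow {p : ℕ} (hp : p.Prime) (e : ℕ) (a b : ℤ) (h : (p : ℤ) ^ e ∣ a * b) :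
    ∃ i, i ≤ e ∧ (p : ℤ) ^ i ∣ a ∧ (p : ℤ) ^ (e - i) ∣ b := by
  have h1 : p ^ e ∣ a.natAbs * b.natAbs := by
    rw [← Int.natAbs_mul]
    have : ((p ^ e : ℕ) : ℤ) ∣ a * b := by push_cast; exact h
    exact Int.natCast_dvd.1 this
  obtain ⟨k1, k2, hk1, hk2, hk⟩ := exists_dvd_and_dvd_of_dvd_mul h1
  obtain ⟨i, hi, rfl⟩ := (Nat.dvd_prime_pow hp).1 (Dvd.intro _ hk.symm)
  refine ⟨i, hi, ?_, ?_⟩
  · have : ((p ^ i : ℕ) : ℤ) ∣ a := Int.natCast_dvd.2 hk1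
    push_cast at this; exact this
  · have hk' : p ^ i * p ^ (e - i) = p ^ i * k2 := by
      rw [← pow_add, Nat.add_sub_cancel' hi]; exact hk
    have h2 : p ^ (e - i) = k2 := Nat.eq_of_mul_eq_mul_left (pow_pos hp.pos i) hk'
    have : ((p ^ (e - i) : ℕ) : ℤ) ∣ b := Int.natCast_dvd.2 (h2 ▸ hk2)
    push_cast at this; exact this

theorem mul3 {p x y z a b c : ℝ} {i j k e : ℕ} (hp : 0 < p) (hx : x ≤ 2 * a / p ^ i)
    (hy : y ≤ 2 * b / p ^ j) (hz : z ≤ 2 * c / p ^ k) (he : e = i + j + k)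
    (hx0 : 0 ≤ x) (hy0 : 0 ≤ y) (hz0 : 0 ≤ z) :
    x * (y * z) ≤ 8 * (a * b * c) / p ^ e := by
  have h1 : y * z ≤ 2 * b / p ^ j * (2 * c / p ^ k) := mul_le_mul hy hz hz0 (hy0.trans hy)
  have h2 : x * (y * z) ≤ 2 * a / p ^ i * (2 * b / p ^ j * (2 * c / p ^ k)) :=
    mul_le_mul hx h1 (mul_nonneg hy0 hz0) (hx0.trans hx)
  refine h2.trans (le_of_eq ?_)
  rw [he, pow_add, pow_add]
  have h3 : p ^ i ≠ 0 := (pow_pos hp _).ne'
  have h4 : p ^ j ≠ 0 := (pow_pos hp _).ne'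
  have h5 : p ^ k ≠ 0 := (pow_pos hp _).ne'
  rw [div_mul_div_comm, div_mul_div_comm, div_eq_div_iff (by positivity) (by positivity)]
  ring

/-- CNT -/
theorem cnt : Pool.Agent.Y766.R7.S_CNT := by
  intro p e hp Q1 Q2 Q3
  set I := ((range (e + 1)) ×ˢ (range (e + 1))).filter (fun ij : ℕ × ℕ => ij.1 + ij.2 ≤ e) with hI
  have hp0 : (0 : ℝ) < p := by exact_mod_cast hp.pos
  set A := (((((Ioo (-(Q1 : ℤ)) Q1).filter (· ≠ 0)) ×ˢ ((Ioo (-(Q2 : ℤ)) Q2).filter (· ≠ 0)) ×ˢ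
    ((Ioo (-(Q3 : ℤ)) Q3).filter (· ≠ 0))).filter
      (fun v : ℤ × ℤ × ℤ => (p : ℤ) ^ e ∣ v.1 * v.2.1 * v.2.2))) with hA
  have hsub : A ⊆ I.biUnion (fun ij => T p ij.1 Q1 ×ˢ T p ij.2 Q2 ×ˢ T p (e - ij.1 - ij.2) Q3) := by
    intro v hv
    rw [hA, mem_filter, mem_product, mem_product] at hv
    obtain ⟨⟨h1, h2, h3⟩, h4⟩ := hv
    rw [mul_assoc] at h4
    obtain ⟨i, hi, hi1, hi2⟩ := split_pow hp e _ _ h4
    obtain ⟨j, hj, hj1, hj2⟩ := split_pow hp (e - i) _ _ hi2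
    rw [mem_biUnion]
    refine ⟨(i, j), ?_, ?_⟩
    · rw [hI, mem_filter, mem_product, mem_range, mem_range]
      exact ⟨⟨by omega, by omega⟩, by show i + j ≤ e; omega⟩
    · rw [mem_product, mem_product]
      refine ⟨?_, ?_, ?_⟩
      · rw [T, mem_filter]; exact ⟨h1, hi1⟩
      · rw [T, mem_filter]; exact ⟨h2, hj1⟩
      · rw [T, mem_filter]; exact ⟨h3, hj2⟩
  have hcard : (A.card : ℝ) ≤ ∑ ij ∈ I, 8 * (Q1 * Q2 * Q3 : ℝ) / (p : ℝ) ^ e := by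
    have h1 : A.card ≤ ∑ ij ∈ I, (T p ij.1 Q1 ×ˢ T p ij.2 Q2 ×ˢ T p (e - ij.1 - ij.2) Q3).card :=
      (card_le_card hsub).trans card_biUnion_le
    have h2 : (A.card : ℝ) ≤
        ∑ ij ∈ I, ((T p ij.1 Q1 ×ˢ T p ij.2 Q2 ×ˢ T p (e - ij.1 - ij.2) Q3).card : ℝ) := by
      exact_mod_cast h1
    refine h2.trans (Finset.sum_le_sum ?_)
    intro ij hij
    rw [hI, mem_filter] at hij
    have h3 : e = ij.1 + ij.2 + (e - ij.1 - ij.2) := by omega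
    rw [card_product, card_product]
    push_cast
    have hp0' := hp.pos
    exact mul3 hp0 (card_T _ _ _ hp0') (card_T _ _ _ hp0') (card_T _ _ _ hp0') h3
      (Nat.cast_nonneg _) (Nat.cast_nonneg _) (Nat.cast_nonneg _)
  refine hcard.trans ?_
  rw [sum_const, nsmul_eq_mul]
  have hIc : I.card ≤ (e + 1) ^ 3 := by
    calc I.card ≤ ((range (e + 1)) ×ˢ (range (e + 1))).card := card_filter_le _ _
      _ = (e + 1) * (e + 1) := by rw [card_product, card_range]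
      _ ≤ (e + 1) ^ 3 := by nlinarith [Nat.zero_le e]
  have hIc' : (I.card : ℝ) ≤ ((e : ℝ) + 1) ^ 3 := by exact_mod_cast hIc
  have h5 : (0 : ℝ) ≤ 8 * (Q1 * Q2 * Q3 : ℝ) / (p : ℝ) ^ e := by positivity
  calc (I.card : ℝ) * (8 * (Q1 * Q2 * Q3 : ℝ) / (p : ℝ) ^ e)
      ≤ ((e : ℝ) + 1) ^ 3 * (8 * (Q1 * Q2 * Q3 : ℝ) / (p : ℝ) ^ e) := by gcongr
    _ = 8 * (e + 1) ^ 3 * (Q1 * Q2 * Q3) / (p : ℝ) ^ e := by ring

end Pool.Agent.Y287.R7
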